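import Mathlib
import Pool.Agent.Run7.h640.Final

set_option autoImplicit false

/-!
# Dynamical degrees of `D ∘ f` for a generic diagonal matrix `D`

For every polynomial automorphism `f` of `ℂ^d`, `d ≥ 2`, there is one weak Perron number `λ` of
degree at most `d - 1` such that the dynamical degree of `D ∘ f` is at most `λ` for every invertible
diagonal matrix `D`, with equality for all `D` off one algebraic hypersurface.
-/

namespace Pool.Agent.Results.MP_dae5d3_ag.GenericTwist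

/-- Polynomial automorphisms of `ℂ^d`, given by the algebra automorphism of the coordinate ring:
the component `f_i` of the automorphism is the polynomial `φ (X i)`, and `(φ ^ n) (X i)` is the
`i`-th component of the `n`-th iterate. -/
abbrev PolyAut (d : ℕ) := MvPolynomial (Fin d) ℂ ≃ₐ[ℂ] MvPolynomial (Fin d) ℂ

/-- `lam` is the dynamical degree of `φ`: the limit of `deg (f^n) ^ (1/n)`. -/
def IsDynamicalDegree {d : ℕ} (φ : PolyAut d) (lam : ℝ) : Prop :=
  Filter.Tendsto
    (fun n : ℕ =>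
      ((Finset.univ.sup (fun i : Fin d => ((φ ^ n) (MvPolynomial.X i)).totalDegree) : ℕ) : ℝ)
        ^ ((1 : ℝ) / (n : ℝ)))
    Filter.atTop (nhds lam)

/-- `lam` is a weak Perron number of degree at most `k`: an algebraic integer `lam ≥ 1` of degree
at most `k` none of whose conjugates has modulus larger than `lam`. -/
def IsWeakPerron (lam : ℝ) (k : ℕ) : Prop :=
  1 ≤ lam ∧ IsIntegral ℤ lam ∧ (minpoly ℤ lam).natDegree ≤ k ∧
    ∀ μ : ℂ, Polynomial.aeval μ (minpoly ℤ lam) = 0 → ‖μ‖ ≤ lam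

theorem result (d : ℕ) (hd : 2 ≤ d) (φ : PolyAut d) :
    ∃ (lam : ℝ) (p : MvPolynomial (Fin d) ℂ), IsWeakPerron lam (d - 1) ∧ p ≠ 0 ∧
      ∀ c : Fin d → ℂˣ, ∃ ψ : PolyAut d,
        (∀ i, ψ (MvPolynomial.X i) = MvPolynomial.C (c i : ℂ) * φ (MvPolynomial.X i)) ∧
        ∃ lam' : ℝ, IsDynamicalDegree ψ lam' ∧ lam' ≤ lam ∧
          (MvPolynomial.eval (fun i => (c i : ℂ)) p ≠ 0 → lam' = lam) := by
  obtain ⟨lam, h1, h2, h3, h4, h5, p, hp, h6⟩ := Run7.h640.main hd φ
  refine ⟨lam, p, ⟨h1, h2, h3, h4⟩, hp, fun c => ⟨Run7.h640.twist φ c,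
    Run7.h640.twist_X φ c, ?_⟩⟩
  by_cases hc : MvPolynomial.eval (fun i => (c i : ℂ)) p ≠ 0
  · exact ⟨lam, h6 c hc, le_rfl, fun _ => rfl⟩
  · obtain ⟨lam', hle, hlam'⟩ := h5 c
    exact ⟨lam', hlam', hle, fun h => absurd h hc⟩

end Pool.Agent.Results.MP_dae5d3_ag.GenericTwist
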