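import Mathlib
import Pool.Agent.Run7.h640.NonNeg

set_option autoImplicit false

/-!
# Dynamical degrees of polynomial automorphisms with nonnegative coefficients
-/

namespace Pool.Agent.Results.MP_dae5d3_ag.NonnegCoeff

/-- If all components of a polynomial automorphism of `ℂ^d` have nonnegative real coefficients, then
its dynamical degree is an algebraic integer `λ ≥ 1` of degree at most `d - 1` all of whose complex
conjugates have modulus at most `λ`. -/
theorem result (d : ℕ) (hd : 2 ≤ d)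
    (φ : MvPolynomial (Fin d) ℂ ≃ₐ[ℂ] MvPolynomial (Fin d) ℂ)
    (hφ : ∀ (i : Fin d) (m : Fin d →₀ ℕ),
      ∃ r : ℝ, 0 ≤ r ∧ MvPolynomial.coeff m (φ (MvPolynomial.X i)) = (r : ℂ)) :
    ∃ lam : ℝ,
      Filter.Tendsto
        (fun n : ℕ =>
          ((Finset.univ.sup (fun i : Fin d => ((φ ^ n) (MvPolynomial.X i)).totalDegree) : ℕ) : ℝ)
            ^ ((1 : ℝ) / (n : ℝ)))
        Filter.atTop (nhds lam) ∧
      1 ≤ lam ∧
      IsIntegral ℤ lam ∧
      (minpoly ℤ lam).natDegree ≤ d - 1 ∧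
      ∀ μ : ℂ, Polynomial.aeval μ (minpoly ℤ lam) = 0 → ‖μ‖ ≤ lam :=
  Run7.h640.nonneg_main hd φ hφ

end Pool.Agent.Results.MP_dae5d3_ag.NonnegCoeff
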